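import Pool.Agent.helper7.FI2.SpecH2

/-!
# Project fi2 (MP_baa4d7_al), row HNR: the norm of a character of the block
-/

set_option autoImplicit false

namespace Pool.Agent.FI2

open Pool.Agent.helper58.DC Pool.Agent.DI Pool.Agent.GR Pool.Agent.OB Pool.Agent.DR Pool.Agent.FI

theorem HNR_fs {α β : Type} [Fintype α] [AddCommMonoid β] (S : α → Prop) [DecidablePred S] (f : α → β) :
    ∑ᶠ x ∈ {x | S x}, f x = ∑ x, if S x then f x else 0 := by
  rw [finsum_eq_sum_of_fintype]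
  refine Finset.sum_congr rfl fun x _ => ?_
  by_cases h : S x
  · have h' : x ∈ {x | S x} := h
    rw [if_pos h, finsum_eq_if, if_pos h']
  · have h' : x ∉ {x | S x} := h
    rw [if_neg h, finsum_eq_if, if_neg h']

theorem HNR_cz_bot (G : Type) [Group G] : cz (⊥ : Subgroup G) = ⊤ := by
  rw [eq_top_iff]
  intro x _
  rw [Subgroup.mem_centralizer_iff]
  intro y hy
  have h1 : y = 1 := Subgroup.mem_bot.1 hy
  rw [h1, one_mul, mul_one]

theorem HNR_Cz1 {G : Type} [Group G] (L : Subgroup G) : Cz L 1 = L := by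
  ext x
  rw [mem_Cz]
  exact ⟨fun h => h.1, fun h => ⟨h, by rw [one_mul, mul_one]⟩⟩

theorem HNR_one (hCHC : FI.CHC_stmt) (hQES : QES_stmt) (p : ℕ) (M : Ideal (integralClosure ℤ ℂ)) (G : Type) [Group G] [Finite G]
    (L : Subgroup G) (θ χ' : G → ℂ) (hχ : χ' ∈ Bl M L θ) : FI3.Su p M L θ χ' 1 = EE p L χ' χ' := by
  unfold FI3.Su EE
  rw [HNR_Cz1]
  refine congrArg (fun z : ℂ => z / (Nat.card L : ℂ)) ?_
  refine finsum_mem_congr rfl fun v hv => ?_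
  have h1 := (((hQES G L χ' hχ.1).2 (Bl M L θ) (fun _ h => h.1) v hv.1).1 hχ)
  rw [one_mul, h1, hCHC G L χ' hχ.1 v]

theorem HNR_su (hSUA3 : FI3.SUA3_stmt) (hHTN : HTN_stmt) (hB2 : B2_stmt) (p : ℕ) (M : Ideal (integralClosure ℤ ℂ))
    (hM : Setup p M) (G : Type) [Group G] [Finite G] (D L : Subgroup G) (θ χ' : G → ℂ) (hχ : χ' ∈ Bl M L θ) (u : G) (hu : u ∈ L)
    (hG : Good p M D (Cz L u) θ) :
    FI3.Su p M L θ χ' u = ((‖dd M (Cz L u) θ χ' u‖ ^ 2 : ℝ) : ℂ) / (Nat.card D : ℂ) := by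
  have hcD : (Nat.card D : ℂ) ≠ 0 := by exact_mod_cast Nat.card_pos.ne'
  have hcK : (Nat.card (Cz L u) : ℂ) ≠ 0 := by exact_mod_cast Nat.card_pos.ne'
  have hfin : (Bl M (Cz L u) θ).Finite := (hB2 G (Cz L u)).1.subset fun _ h => h.1
  have hE : ∀ ψ ∈ Bl M (Cz L u) θ, ∀ ψ' ∈ Bl M (Cz L u) θ, EE p (Cz L u) ψ ψ' = 1 / (Nat.card D : ℂ) := by
    intro ψ h1 ψ' h2
    have h3 := hHTN p M hM G D (Cz L u) θ hG ψ h1 ψ' h2
    unfold EE
    rw [div_eq_div_iff hcK hcD, one_mul, mul_comm]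
    exact h3
  rw [hSUA3 p M G L θ u hu χ' hχ.1]
  unfold dd
  set a : (G → ℂ) → ℂ := fun ψ => mt (Cz L u) χ' ψ * (ψ u / ψ 1) with ha
  have h4 : ∑ᶠ ψ ∈ Bl M (Cz L u) θ, ∑ᶠ ψ' ∈ Bl M (Cz L u) θ, (mt (Cz L u) χ' ψ * (ψ u / ψ 1)) *
      (starRingEnd ℂ) (mt (Cz L u) χ' ψ' * (ψ' u / ψ' 1)) * EE p (Cz L u) ψ ψ' =
      ∑ ψ ∈ hfin.toFinset, ∑ ψ' ∈ hfin.toFinset, a ψ * (starRingEnd ℂ) (a ψ') * (1 / (Nat.card D : ℂ)) := by
    rw [finsum_mem_eq_finite_toFinset_sum _ hfin]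
    refine Finset.sum_congr rfl fun ψ hψ => ?_
    rw [finsum_mem_eq_finite_toFinset_sum _ hfin]
    refine Finset.sum_congr rfl fun ψ' hψ' => ?_
    rw [hE ψ (hfin.mem_toFinset.1 hψ) ψ' (hfin.mem_toFinset.1 hψ')]
  have h5 : (∑ᶠ ψ ∈ Bl M (Cz L u) θ, mt (Cz L u) χ' ψ * (ψ u / ψ 1)) = ∑ ψ ∈ hfin.toFinset, a ψ := by
    rw [finsum_mem_eq_finite_toFinset_sum _ hfin]
  rw [h4, h5]
  have h6 : ((‖∑ ψ ∈ hfin.toFinset, a ψ‖ ^ 2 : ℝ) : ℂ) =
      (∑ ψ ∈ hfin.toFinset, a ψ) * (starRingEnd ℂ) (∑ ψ ∈ hfin.toFinset, a ψ) := by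
    rw [Complex.mul_conj, Complex.normSq_eq_norm_sq]
  rw [h6, map_sum, Finset.sum_mul_sum, Finset.sum_div]
  refine Finset.sum_congr rfl fun ψ _ => ?_
  rw [Finset.sum_div]
  refine Finset.sum_congr rfl fun ψ' _ => ?_
  rw [mul_one_div]

theorem HNR_wt1 {G : Type} [Group G] (M : Ideal (integralClosure ℤ ℂ)) (D L : Subgroup G) (θ : G → ℂ) :
    FI3.wt M D L θ 1 = 1 := by
  unfold FI3.wt
  rw [HNR_Cz1, Subgroup.relIndex_self]

theorem HNR_wt {G : Type} [Group G] {M : Ideal (integralClosure ℤ ℂ)} {D L : Subgroup G} {θ : G → ℂ} (hF : Free M D θ)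
    (hL : L = ⊤) (u : G) (hu : u ∈ D) (hu1 : u ≠ 1) : FI3.wt M D L θ u = (cz D).relIndex (TT M D θ) := by
  unfold FI3.wt
  rw [hL, inf_top_eq]
  have h1 : Cz (TT M D θ) u = cz D := by
    ext t
    rw [mem_Cz]
    constructor
    · rintro ⟨h1, h2⟩
      exact hF t h1 u hu hu1 h2.symm
    · intro h
      refine ⟨cz_le_TT h, ?_⟩
      rw [Subgroup.mem_centralizer_iff] at h
      exact h u hu
  rw [h1]

theorem HNR (hQMXS : FI3.QMXS_stmt) (hSUA3 : FI3.SUA3_stmt) (hHTN : HTN_stmt) (hQEI : QEI_stmt) (hQES : QES_stmt)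
    (hCHC : FI.CHC_stmt) (hB2 : B2_stmt) : HNR_stmt := by
  intro p M hM G _ _ D x θ χ h χ' hχ
  classical
  have : Fintype D := Fintype.ofFinite D
  have hlo := h.lo
  have hR := hlo.rt
  have hcz := HNR_cz_bot G
  have h1 := hQMXS p M hM G D x θ χ (FI3.LoS.of2 hlo) ⊥ bot_le χ' hχ
  set L := cz (⊥ : Subgroup G) with hL
  set i : ℕ := (cz D).relIndex (TT M D θ) with hi
  have hi0 : 0 < i := Nat.pos_of_ne_zero fun h0 => hlo.bet (by rw [← hi, h0]; exact dvd_zero p)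
  have hD0 : 0 < Nat.card D := Nat.card_pos
  obtain ⟨-, -, -, hQ4⟩ := hQEI p M hM G L (Bl M L θ) (Q1_BC M L 1 θ).1
  obtain ⟨r, hr, hr'⟩ := hQ4 χ' hχ.1
  set N : D → ℝ := fun u => ‖dd M (Cz L u) θ χ' u‖ ^ 2 with hN
  have h2 : ∀ u : D, FI3.Su p M L θ χ' u / (FI3.wt M D L θ u : ℂ) =
      (((if u = 1 then r else 0) + (if u ≠ 1 then N u else 0) / ((Nat.card D : ℝ) * i) : ℝ) : ℂ) := by
    intro u
    by_cases hu : u = 1
    · rw [if_pos hu, if_neg (not_not.2 hu), zero_div, add_zero, hu]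
      change FI3.Su p M L θ χ' (1 : G) / (FI3.wt M D L θ (1 : G) : ℂ) = _
      rw [HNR_one hCHC hQES p M G L θ χ' hχ, HNR_wt1, hr', Nat.cast_one, div_one]
    · have hu1 : (u : G) ≠ 1 := fun h0 => hu (Subtype.ext h0)
      have huL : (u : G) ∈ L := by
        rw [hcz]
        exact Subgroup.mem_top _
      have hgood : Good p M D (Cz L u) θ := by
        rw [hL, ← cz_sup_zpowers]
        refine h.good _ (sup_le bot_le (Subgroup.zpowers_le.2 u.2)) ?_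
        intro h3
        have h4 : (u : G) ∈ (⊥ : Subgroup G) ⊔ Subgroup.zpowers (u : G) := Subgroup.mem_sup_right (Subgroup.mem_zpowers _)
        rw [h3] at h4
        exact hu1 (Subgroup.mem_bot.1 h4)
      rw [if_neg hu, if_pos hu, zero_add, HNR_su hSUA3 hHTN hB2 p M hM G D L θ χ' hχ u huL hgood,
        HNR_wt hlo.free hcz u u.2 hu1, div_div, hN, hi]
      push_cast
      rfl
  have h3 : (1 : ℝ) = r + (∑ u : D, if u ≠ 1 then N u else 0) / ((Nat.card D : ℝ) * i) := by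
    have h4 : (1 : ℂ) = ∑ u : D, FI3.Su p M L θ χ' u / (FI3.wt M D L θ u : ℂ) := by
      rw [h1, ← finsum_set_coe_eq_finsum_mem, finsum_eq_sum_of_fintype]
      rfl
    rw [Finset.sum_congr rfl fun u _ => h2 u, ← Complex.ofReal_sum] at h4
    have h5 : (1 : ℝ) = ∑ u : D, ((if u = 1 then r else 0) + (if u ≠ 1 then N u else 0) / ((Nat.card D : ℝ) * i)) := by
      exact_mod_cast h4
    rw [Finset.sum_add_distrib, Finset.sum_ite_eq' Finset.univ (1 : D) (fun _ => r), if_pos (Finset.mem_univ _),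
      ← Finset.sum_div] at h5
    exact h5
  rw [HNR_fs (fun u : D => u ≠ 1)]
  have hpos : (0 : ℝ) < (Nat.card D : ℝ) * i := by
    have h6 : (0 : ℝ) < Nat.card D := by exact_mod_cast hD0
    have h7 : (0 : ℝ) < i := by exact_mod_cast hi0
    exact mul_pos h6 h7
  have h6 : (∑ u : D, if u ≠ 1 then N u else 0) / ((Nat.card D : ℝ) * i) < 1 := by linarith
  rw [div_lt_one hpos] at h6
  rw [mul_comm (i : ℝ)]
  exact h6

end Pool.Agent.FI2
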